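import Mathlib

/-!
# MP_de5eaa_nt: Wilson primes of different orders

A prime `p` is a Wilson prime of order `n` if `1 ≤ n ≤ p` and `p ^ 2` divides
`(n - 1)! (p - n)! - (-1) ^ n`; the Wilson primes of the problem are those of order `1`, and it is
conjectured that there are infinitely many of every order.

A common Wilson prime of the orders `m < n` divides the numerator of `1 / m + ... + 1 / (n - 1)`,
and there are at most `n - m - 1` such primes `p ≥ n`. Hence the sets of the Wilson primes of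
different orders are almost disjoint, and on average over the orders there are few Wilson primes.
-/

set_option autoImplicit false

open Finset Nat Polynomial

namespace Pool.Agent.Results.MP_de5eaa_nt.AlmostAllOrders

/-- `p` is a Wilson prime of order `n`: `p` is a prime, `1 ≤ n ≤ p` and
`(n - 1)! (p - n)! ≡ (-1) ^ n (mod p ^ 2)`. (Modulo `p` the congruence always holds.) -/
def IsWilson (n p : ℕ) : Prop :=
  p.Prime ∧ 1 ≤ n ∧ n ≤ p ∧ (p : ℤ) ^ 2 ∣ ((n - 1)! : ℤ) * ((p - n)! : ℤ) - (-1) ^ n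

/-- the number of the Wilson primes of order `n` up to `x` -/
noncomputable def count (n x : ℕ) : ℕ := {p : ℕ | p ≤ x ∧ IsWilson n p}.ncard

/-- `X (X + 1) ⋯ (X + d - 1)` -/
noncomputable def f (d : ℕ) : ℤ[X] := ∏ i ∈ range d, (X + C (i : ℤ))

/-- its derivative at `m` -/
def g (m d : ℕ) : ℕ := ∑ i ∈ range d, ∏ j ∈ (range d).erase i, (m + j)

theorem f_succ (d : ℕ) (x : ℤ) : (f (d + 1)).eval x = (f d).eval x * (x + d) := by
  simp [f, prod_range_succ, eval_prod]

theorem eval_fact (m d : ℕ) (hm : 1 ≤ m) :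
    ((m + d - 1)! : ℤ) = (f d).eval (m : ℤ) * ((m - 1)! : ℤ) := by
  induction d with
  | zero => simp [f]
  | succ d ih =>
    rw [f_succ]
    have h : m + (d + 1) - 1 = (m + d - 1) + 1 := by omega
    rw [h, Nat.factorial_succ]
    push_cast
    have h2 : ((m + d - 1 : ℕ) : ℤ) + 1 = (m : ℤ) + d := by omega
    rw [h2, ih]
    ring

theorem eval_neg (p m d : ℕ) (h : m + d ≤ p) :
    (f d).eval ((m : ℤ) + -(p : ℤ)) * ((p - (m + d))! : ℤ) = (-1) ^ d * ((p - m)! : ℤ) := by
  induction d with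
  | zero => simp [f]
  | succ d ih =>
    have ih := ih (by omega)
    rw [f_succ]
    have h1 : p - (m + d) = (p - (m + (d + 1))) + 1 := by omega
    rw [h1, Nat.factorial_succ] at ih
    push_cast at ih
    have h2 : ((p - (m + (d + 1)) : ℕ) : ℤ) + 1 = (p : ℤ) - m - d := by omega
    rw [h2] at ih
    rw [pow_succ]
    linear_combination (-1) * ih

theorem deriv_eval (m d : ℕ) : (derivative (f d)).eval (m : ℤ) = (g m d : ℤ) := by
  unfold f g
  rw [derivative_prod_finset, eval_finsetSum]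
  push_cast
  apply Finset.sum_congr rfl
  intro i hi
  simp [eval_prod]

theorem key (p m d : ℕ) (h1 : IsWilson m p) (h2 : IsWilson (m + d) p) : p ∣ g m d := by
  obtain ⟨hp, hm, hmp, hE⟩ := h1
  obtain ⟨-, -, hnp, hF⟩ := h2
  rw [eval_fact m d hm] at hF
  have hB := eval_neg p m d hnp
  set A := (f d).eval (m : ℤ) with hA
  set B := (f d).eval ((m : ℤ) + -(p : ℤ)) with hBdef
  have hE2 : (p : ℤ) ^ 2 ∣ B * (((m - 1)! : ℤ) * ((p - (m + d))! : ℤ)) - (-1) ^ (m + d) := by
    have h3 := Dvd.dvd.mul_left hE ((-1) ^ d)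
    have h4 : (-1 : ℤ) ^ d * (((m - 1)! : ℤ) * ((p - m)! : ℤ) - (-1) ^ m) =
        B * (((m - 1)! : ℤ) * ((p - (m + d))! : ℤ)) - (-1) ^ (m + d) := by
      rw [pow_add]
      linear_combination (-((m - 1)! : ℤ)) * hB
    rwa [h4] at h3
  have hsub : (p : ℤ) ^ 2 ∣ (A - B) * (((m - 1)! : ℤ) * ((p - (m + d))! : ℤ)) := by
    have h5 := dvd_sub hF hE2
    have h6 : A * ((m - 1)! : ℤ) * ((p - (m + d))! : ℤ) - (-1) ^ (m + d) -
        (B * (((m - 1)! : ℤ) * ((p - (m + d))! : ℤ)) - (-1) ^ (m + d)) =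
        (A - B) * (((m - 1)! : ℤ) * ((p - (m + d))! : ℤ)) := by ring
    rwa [h6] at h5
  have hcop : IsCoprime ((p : ℤ) ^ 2) (((m - 1)! : ℤ) * ((p - (m + d))! : ℤ)) := by
    apply IsCoprime.pow_left
    apply IsCoprime.mul_right
    · rw [Nat.isCoprime_iff_coprime]
      exact hp.coprime_factorial_of_lt (by omega)
    · rw [Nat.isCoprime_iff_coprime]
      exact hp.coprime_factorial_of_lt (by omega)
  have hAB : (p : ℤ) ^ 2 ∣ A - B := hcop.dvd_of_dvd_mul_right hsub
  obtain ⟨k, hk⟩ := (f d).binomExpansion (m : ℤ) (-(p : ℤ))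
  rw [← hBdef, ← hA, deriv_eval] at hk
  have h7 : (p : ℤ) ^ 2 ∣ (p : ℤ) * (g m d : ℤ) := by
    have h8 : (p : ℤ) * (g m d : ℤ) = (A - B) + (p : ℤ) ^ 2 * k := by
      linear_combination hk
    rw [h8]
    exact dvd_add hAB (dvd_mul_right _ _)
  rw [pow_two] at h7
  have hp0 : (p : ℤ) ≠ 0 := by exact_mod_cast hp.ne_zero
  have h9 := (mul_dvd_mul_iff_left hp0).mp h7
  exact_mod_cast h9

theorem g_pos (m d : ℕ) (hm : 1 ≤ m) (hd : 1 ≤ d) : 0 < g m d := by
  unfold g
  apply Finset.sum_pos
  · intro i _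
    apply Finset.prod_pos
    intro j _
    omega
  · exact ⟨0, mem_range.mpr hd⟩

theorem g_lt (m d : ℕ) (hm : 1 ≤ m) (hd : 1 ≤ d) : g m d < (m + d) ^ d := by
  have h1 : ∀ i ∈ range d, ∏ j ∈ (range d).erase i, (m + j) ≤ (m + d - 1) ^ (d - 1) := by
    intro i hi
    have h2 : ((range d).erase i).card = d - 1 := by
      rw [card_erase_of_mem hi, card_range]
    rw [← h2]
    apply Finset.prod_le_pow_card
    intro j hj
    have := mem_range.mp (mem_of_mem_erase hj)
    omega
  have h3 : g m d ≤ d * (m + d - 1) ^ (d - 1) := by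
    have := Finset.sum_le_card_nsmul (range d) _ _ h1
    rw [card_range, smul_eq_mul] at this
    exact this
  calc g m d ≤ d * (m + d - 1) ^ (d - 1) := h3
    _ ≤ (m + d - 1) * (m + d - 1) ^ (d - 1) := Nat.mul_le_mul_right _ (by omega)
    _ = (m + d - 1) ^ d := by
      rw [← pow_succ']
      congr 1
      omega
    _ < (m + d) ^ d := Nat.pow_lt_pow_left (by omega) (by omega)

theorem common (m d : ℕ) (hm : 1 ≤ m) (hd : 1 ≤ d) :
    {p | IsWilson m p ∧ IsWilson (m + d) p}.Finite ∧
      {p | IsWilson m p ∧ IsWilson (m + d) p}.ncard ≤ d - 1 := by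
  have hsub : {p | IsWilson m p ∧ IsWilson (m + d) p} ⊆
      (((g m d).primeFactors.filter (fun p => m + d ≤ p) : Finset ℕ) : Set ℕ) := by
    intro p hp
    rw [mem_coe, mem_filter, Nat.mem_primeFactors]
    exact ⟨⟨hp.1.1, key p m d hp.1 hp.2, (g_pos m d hm hd).ne'⟩, hp.2.2.2.1⟩
  refine ⟨(Finset.finite_toSet _).subset hsub, ?_⟩
  set T := (g m d).primeFactors.filter (fun p => m + d ≤ p) with hTdef
  have hT : (m + d) ^ T.card ≤ g m d :=
    calc (m + d) ^ T.card ≤ ∏ p ∈ T, p :=
          Finset.pow_card_le_prod T _ _ (fun p hp => (mem_filter.mp hp).2)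
      _ ≤ ∏ p ∈ (g m d).primeFactors, p :=
          prod_le_prod_of_subset_of_one_le' (filter_subset _ _)
            (fun p hp _ => (Nat.prime_of_mem_primeFactors hp).one_le)
      _ ≤ g m d := Nat.le_of_dvd (g_pos m d hm hd) (Nat.prod_primeFactors_dvd _)
  have h1 : T.card < d :=
    (Nat.pow_lt_pow_iff_right (by omega)).mp (lt_of_le_of_lt hT (g_lt m d hm hd))
  have h2 : {p | IsWilson m p ∧ IsWilson (m + d) p}.ncard ≤ T.card := by
    rw [← Set.ncard_coe_finset]
    exact Set.ncard_le_ncard hsub (Finset.finite_toSet _)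
  omega

theorem card_le_pairs (K : Finset ℕ) :
    K.card ≤ 1 + ((K ×ˢ K).filter (fun v => v.1 < v.2)).card := by
  rcases K.eq_empty_or_nonempty with h | h
  · subst h
    simp
  · have h1 : (K.erase (K.min' h)).card ≤ ((K ×ˢ K).filter (fun v => v.1 < v.2)).card := by
      apply card_le_card_of_injOn (fun n => (K.min' h, n))
      · intro n hn
        have hn := mem_erase.mp (mem_coe.mp hn)
        rw [mem_coe, mem_filter, mem_product]
        exact ⟨⟨K.min'_mem h, hn.2⟩, lt_of_le_of_ne (K.min'_le n hn.2) (Ne.symm hn.1)⟩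
      · intro a _ b _ hab
        exact (Prod.ext_iff.mp hab).2
    rw [card_erase_of_mem (K.min'_mem h)] at h1
    omega

theorem sum_pairs (M N : ℕ) :
    ∑ v ∈ ((Ioc M (M + N)) ×ˢ (Ioc M (M + N))).filter (fun v : ℕ × ℕ => v.1 < v.2),
      (v.2 - v.1 - 1) = N.choose 3 := by
  have h1 : ∀ n ∈ Ioc M (M + N), ∑ m ∈ Ioc M (M + N), (if m < n then n - m - 1 else 0) =
      (n - M - 1).choose 2 := by
    intro n hn
    have hn := mem_Ioc.mp hn
    have h2 : (Ioc M (M + N)).filter (fun m => m < n) = Ico (M + 1) n := by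
      ext m
      rw [mem_filter, mem_Ioc, mem_Ico]
      omega
    rw [← sum_filter, h2, sum_Ico_eq_sum_range]
    have h3 : ∑ k ∈ range (n - (M + 1)), (n - (M + 1 + k) - 1) =
        ∑ k ∈ range (n - M - 1), (n - M - 1 - 1 - k) := by
      have h0 : n - (M + 1) = n - M - 1 := by omega
      rw [h0]
      apply Finset.sum_congr rfl
      intro k _
      omega
    rw [h3, sum_range_reflect (fun k => k) (n - M - 1), sum_range_id, Nat.choose_two_right]
  rw [sum_filter, sum_product_right, Finset.sum_congr rfl h1]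
  have h4 : ∀ N : ℕ, ∑ n ∈ Ioc M (M + N), (n - M - 1).choose 2 = N.choose 3 := by
    intro N
    induction N with
    | zero => simp
    | succ N ih =>
      have h5 : (N + 1).choose 3 = N.choose 2 + N.choose 3 := Nat.choose_succ_succ' N 2
      have h6 : Ioc M (M + (N + 1)) = insert (M + N + 1) (Ioc M (M + N)) := by
        ext m
        rw [mem_insert, mem_Ioc, mem_Ioc]
        omega
      rw [h6, sum_insert (by simp [mem_Ioc]), ih, h5]
      congr 2
      omega
  exact h4 N

open Classical in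
theorem count_eq (n x : ℕ) : count n x = ((Icc 1 x).filter (fun p => IsWilson n p)).card := by
  unfold count
  rw [← Set.ncard_coe_finset]
  congr 1
  ext p
  rw [mem_coe, mem_filter, mem_Icc]
  constructor
  · intro h
    exact ⟨⟨h.2.1.one_le, h.1⟩, h.2⟩
  · intro h
    exact ⟨h.1.2, h.2⟩

open Classical in
theorem average (S : Finset ℕ) (x : ℕ) (hS : ∀ n ∈ S, 1 ≤ n) :
    ∑ n ∈ S, count n x ≤ Nat.primeCounting x +
      ∑ v ∈ (S ×ˢ S).filter (fun v : ℕ × ℕ => v.1 < v.2), (v.2 - v.1 - 1) := by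
  have h1 : ∑ n ∈ S, count n x = ∑ p ∈ Icc 1 x, (S.filter (fun n => IsWilson n p)).card := by
    simp_rw [count_eq, card_filter]
    exact sum_comm
  have h2 : ∀ p ∈ Icc 1 x, (S.filter (fun n => IsWilson n p)).card ≤
      (if p.Prime then 1 else 0) +
        ∑ v ∈ (S ×ˢ S).filter (fun v : ℕ × ℕ => v.1 < v.2),
          (if IsWilson v.1 p ∧ IsWilson v.2 p then 1 else 0) := by
    intro p _
    by_cases hp : p.Prime
    · rw [if_pos hp, ← card_filter]
      refine (card_le_pairs _).trans ?_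
      apply Nat.add_le_add_left
      apply card_le_card
      intro v hv
      simp only [mem_filter, mem_product] at hv ⊢
      tauto
    · have : S.filter (fun n => IsWilson n p) = ∅ := by
        apply filter_eq_empty_iff.mpr
        intro n _ h
        exact hp h.1
      rw [this]
      simp
  have h3 : ∑ p ∈ Icc 1 x, (if p.Prime then 1 else 0) = Nat.primeCounting x := by
    rw [← card_filter, Nat.primeCounting, Nat.primeCounting', Nat.count_eq_card_filter_range]
    congr 1
    ext p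
    simp only [mem_filter, mem_Icc, mem_range]
    constructor
    · rintro ⟨h, h'⟩
      exact ⟨by omega, h'⟩
    · rintro ⟨h, h'⟩
      exact ⟨⟨h'.one_le, by omega⟩, h'⟩
  rw [h1]
  refine (Finset.sum_le_sum h2).trans ?_
  rw [sum_add_distrib, h3]
  apply Nat.add_le_add_left
  rw [sum_comm]
  apply Finset.sum_le_sum
  intro v hv
  have hv := mem_filter.mp hv
  have hv1 := hS _ (mem_product.mp hv.1).1
  obtain ⟨d, hd⟩ : ∃ d, v.2 = v.1 + d := ⟨v.2 - v.1, by omega⟩
  have hc := (common v.1 d hv1 (by omega))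
  rw [← card_filter, ← Set.ncard_coe_finset]
  have h5 : v.2 - v.1 - 1 = d - 1 := by omega
  rw [h5]
  refine le_trans (Set.ncard_le_ncard ?_ hc.1) hc.2
  intro p hp
  have hp := (mem_filter.mp (mem_coe.mp hp)).2
  rw [hd] at hp
  exact hp

/-- **Wilson primes of different orders.** -/
theorem result :
    -- the Wilson primes of the problem are those of order `1`
    (∀ p : ℕ, IsWilson 1 p ↔ p.Prime ∧ p ^ 2 ∣ (p - 1)! + 1) ∧
    -- two orders `m < n` have at most `n - m - 1` common Wilson primes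
    (∀ m n : ℕ, 1 ≤ m → m < n → {p | IsWilson m p ∧ IsWilson n p}.Finite ∧
      {p | IsWilson m p ∧ IsWilson n p}.ncard ≤ n - m - 1) ∧
    -- upper bounds for all finite sets of orders, and for `N` consecutive orders
    (∀ (S : Finset ℕ) (x : ℕ), (∀ n ∈ S, 1 ≤ n) → ∑ n ∈ S, count n x ≤ Nat.primeCounting x +
      ∑ v ∈ (S ×ˢ S).filter (fun v : ℕ × ℕ => v.1 < v.2), (v.2 - v.1 - 1)) ∧
    (∀ M N x : ℕ, ∑ n ∈ Ioc M (M + N), count n x ≤ Nat.primeCounting x + N.choose 3) ∧
    -- with at most one exception, for every order there are infinitely many primes which are not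
    -- Wilson primes of this order
    (∀ m n : ℕ, m ≠ n → {p : ℕ | p.Prime ∧ ¬ IsWilson m p}.Infinite ∨
      {p : ℕ | p.Prime ∧ ¬ IsWilson n p}.Infinite) := by
  have hcommon : ∀ m n : ℕ, 1 ≤ m → m < n → {p | IsWilson m p ∧ IsWilson n p}.Finite ∧
      {p | IsWilson m p ∧ IsWilson n p}.ncard ≤ n - m - 1 := by
    intro m n hm hmn
    obtain ⟨d, rfl⟩ : ∃ d, n = m + d := ⟨n - m, by omega⟩
    have h := common m d hm (by omega)
    have h2 : m + d - m - 1 = d - 1 := by omega
    rw [h2]
    exact h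
  have hfin : ∀ m n : ℕ, m ≠ n → {p | IsWilson m p ∧ IsWilson n p}.Finite := by
    intro m n hmn
    rcases Nat.eq_zero_or_pos m with h0 | hm
    · subst h0
      refine Set.Finite.subset Set.finite_empty ?_
      rintro p ⟨h, -⟩
      exact absurd h.2.1 (by omega)
    rcases Nat.eq_zero_or_pos n with h0 | hn
    · subst h0
      refine Set.Finite.subset Set.finite_empty ?_
      rintro p ⟨-, h⟩
      exact absurd h.2.1 (by omega)
    rcases Nat.lt_or_gt_of_ne hmn with h | h
    · exact (hcommon m n hm h).1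
    · have := (hcommon n m hn h).1
      refine this.subset ?_
      rintro p ⟨h1, h2⟩
      exact ⟨h2, h1⟩
  refine ⟨?_, hcommon, fun S x hS => average S x hS, ?_, ?_⟩
  · intro p
    unfold IsWilson
    have e : ((1 - 1)! : ℤ) * ((p - 1)! : ℤ) - (-1) ^ 1 = (((p - 1)! + 1 : ℕ) : ℤ) := by
      push_cast
      simp
    rw [e]
    constructor
    · rintro ⟨h1, -, -, h4⟩
      exact ⟨h1, by exact_mod_cast h4⟩
    · rintro ⟨h1, h4⟩
      exact ⟨h1, le_rfl, h1.one_le, by exact_mod_cast h4⟩
  · intro M N x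
    have h := average (Ioc M (M + N)) x (fun n hn => by have := (mem_Ioc.mp hn).1; omega)
    rw [sum_pairs] at h
    exact h
  · intro m n hmn
    by_contra hcon
    rw [not_or, Set.not_infinite, Set.not_infinite] at hcon
    have h1 : {p : ℕ | p.Prime} ⊆ ({p : ℕ | p.Prime ∧ ¬ IsWilson m p} ∪
        {p : ℕ | p.Prime ∧ ¬ IsWilson n p}) ∪ {p | IsWilson m p ∧ IsWilson n p} := by
      intro p hp
      by_cases h2 : IsWilson m p
      · by_cases h3 : IsWilson n p
        · exact Or.inr ⟨h2, h3⟩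
        · exact Or.inl (Or.inr ⟨hp, h3⟩)
      · exact Or.inl (Or.inl ⟨hp, h2⟩)
    exact Nat.infinite_setOfPred_prime (((hcon.1.union hcon.2).union (hfin m n hmn)).subset h1)

end Pool.Agent.Results.MP_de5eaa_nt.AlmostAllOrders
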